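import Mathlib

set_option autoImplicit false

/-!
# Module S1 : the Cauchy–Pompeiu formula for compactly supported functions
-/

open Metric Set Topology Filter MeasureTheory
open scoped Manifold ContDiff ENNReal ComplexConjugate

namespace Pool.Agent.helper84.QD

namespace S1

/-- the point of polar coordinates `(r, θ)` -/
noncomputable def pt (p : ℝ × ℝ) : ℂ := p.1 * (Real.cos p.2 + Real.sin p.2 * Complex.I)

lemma continuous_pt : Continuous pt := by
  unfold pt; fun_prop

/-- the unit vector -/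
noncomputable def ev (θ : ℝ) : ℂ := Real.cos θ + Real.sin θ * Complex.I

lemma continuous_ev : Continuous ev := by unfold ev; fun_prop

lemma norm_ev (θ : ℝ) : ‖ev θ‖ = 1 := by
  rw [ev, Complex.ofReal_cos, Complex.ofReal_sin]
  exact Complex.norm_cos_add_sin_mul_I θ

lemma ev_ne (θ : ℝ) : ev θ ≠ 0 := by
  rw [← norm_pos_iff, norm_ev]; norm_num

lemma hasDerivAt_ev (θ : ℝ) : HasDerivAt ev (Complex.I * ev θ) θ := by
  have h1 := (Real.hasDerivAt_cos θ).ofReal_comp
  have h2 := ((Real.hasDerivAt_sin θ).ofReal_comp).mul_const Complex.I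
  refine (h1.add h2).congr_deriv ?_
  rw [ev, mul_add]
  push_cast
  linear_combination (- Complex.sin (θ : ℂ)) * Complex.I_mul_I

/-- the radial derivative -/
noncomputable def Af (u : ℂ → ℂ) (z : ℂ) (p : ℝ × ℝ) : ℂ := fderiv ℝ u (z + p.1 * ev p.2) (ev p.2)

/-- the angular derivative divided by `r` -/
noncomputable def Bf (u : ℂ → ℂ) (z : ℂ) (p : ℝ × ℝ) : ℂ :=
  fderiv ℝ u (z + p.1 * ev p.2) (Complex.I * ev p.2)

lemma continuous_Af {u : ℂ → ℂ} (hu : ContDiff ℝ 1 u) (z : ℂ) : Continuous (Af u z) := by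
  have h := hu.continuous_fderiv one_ne_zero
  have h1 : Continuous fun p : ℝ × ℝ => z + p.1 * ev p.2 := by
    have := continuous_ev; fun_prop
  exact (h.comp h1).clm_apply (continuous_ev.comp continuous_snd)

lemma continuous_Bf {u : ℂ → ℂ} (hu : ContDiff ℝ 1 u) (z : ℂ) : Continuous (Bf u z) := by
  have h := hu.continuous_fderiv one_ne_zero
  have h1 : Continuous fun p : ℝ × ℝ => z + p.1 * ev p.2 := by
    have := continuous_ev; fun_prop
  exact (h.comp h1).clm_apply (continuous_const.mul (continuous_ev.comp continuous_snd))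

/-- the fundamental identity -/
lemma identity (L : ℂ →L[ℝ] ℂ) {r : ℝ} (hr : 0 < r) (θ : ℝ) :
    r • ((L 1 + Complex.I * L Complex.I) / (r * ev θ)) =
      L (ev θ) + Complex.I * L (Complex.I * ev θ) := by
  have hr' : (r : ℂ) ≠ 0 := by exact_mod_cast hr.ne'
  have h1 : L (ev θ) = Real.cos θ * L 1 + Real.sin θ * L Complex.I := by
    have : ev θ = Real.cos θ • (1 : ℂ) + Real.sin θ • Complex.I := by
      rw [ev]; simp
    rw [this, map_add, map_smul, map_smul]
    simp
  have h2 : L (Complex.I * ev θ) = -Real.sin θ * L 1 + Real.cos θ * L Complex.I := by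
    have : Complex.I * ev θ = (-Real.sin θ) • (1 : ℂ) + Real.cos θ • Complex.I := by
      rw [ev]
      simp only [Complex.real_smul]
      push_cast
      linear_combination (Complex.sin (θ : ℂ)) * Complex.I_mul_I
    rw [this, map_add, map_smul, map_smul]
    simp
  rw [h1, h2]
  have h3 : (ev θ) * (Real.cos θ - Real.sin θ * Complex.I) = 1 := by
    rw [ev]
    have := Complex.sin_sq_add_cos_sq (θ : ℂ)
    push_cast
    linear_combination this - (Complex.sin (θ : ℂ)) ^ 2 * Complex.I_mul_I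
  have h4 : (L 1 + Complex.I * L Complex.I) / (r * ev θ) =
      (L 1 + Complex.I * L Complex.I) * (Real.cos θ - Real.sin θ * Complex.I) / r := by
    rw [div_eq_div_iff (mul_ne_zero hr' (ev_ne θ)) hr']
    linear_combination (-(L 1 + Complex.I * L Complex.I) * r) * h3
  rw [h4, Complex.real_smul, mul_div_cancel₀ _ hr']
  linear_combination (-(L Complex.I) * Real.sin θ) * Complex.I_mul_I

lemma exists_bound {u : ℂ → ℂ} (hc : HasCompactSupport u) (z : ℂ) :
    ∃ R : ℝ, 0 < R ∧ ∀ p : ℝ × ℝ, R < p.1 → fderiv ℝ u (z + p.1 * ev p.2) = 0 := by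
  have h1 : HasCompactSupport (fderiv ℝ u) := hc.fderiv (𝕜 := ℝ)
  obtain ⟨R, hR⟩ := h1.isCompact.isBounded.subset_ball 0
  refine ⟨max R 0 + ‖z‖ + 1, by positivity, fun p hp => ?_⟩
  by_contra h
  have h2 := hR (subset_tsupport _ h)
  rw [mem_ball_zero_iff] at h2
  have hp0 : 0 ≤ p.1 := by
    have := norm_nonneg z
    have := le_max_right R 0
    linarith
  have h3 : ‖(p.1 : ℂ) * ev p.2‖ = p.1 := by
    rw [norm_mul, norm_ev, Complex.norm_real, mul_one, Real.norm_of_nonneg hp0]
  have h4 : ‖(p.1 : ℂ) * ev p.2‖ ≤ ‖z + p.1 * ev p.2‖ + ‖z‖ := by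
    have := norm_sub_le (z + p.1 * ev p.2) z
    simpa using this
  have := le_max_left R 0
  linarith

lemma integrableOn_of {G : ℝ × ℝ → ℂ} (hG : Continuous G) {R : ℝ}
    (h0 : ∀ p : ℝ × ℝ, R < p.1 → G p = 0) :
    IntegrableOn G (Ioi (0 : ℝ) ×ˢ Ioo (-Real.pi) Real.pi) := by
  have h1 : IntegrableOn G (Icc (0 : ℝ) R ×ˢ Icc (-Real.pi) Real.pi) :=
    hG.continuousOn.integrableOn_compact (isCompact_Icc.prod isCompact_Icc)
  have h2 : IntegrableOn G (Ioi (0 : ℝ) ×ˢ Ioo (-Real.pi) Real.pi \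
      (Icc (0 : ℝ) R ×ˢ Icc (-Real.pi) Real.pi)) := by
    refine (integrableOn_congr_fun (g := fun _ => (0 : ℂ)) ?_ ?_).2 integrableOn_zero
    · intro p hp
      apply h0
      by_contra hlt
      push Not at hlt
      exact hp.2 ⟨⟨hp.1.1.le, hlt⟩, ⟨hp.1.2.1.le, hp.1.2.2.le⟩⟩
    · exact (measurableSet_Ioi.prod measurableSet_Ioo).diff (measurableSet_Icc.prod measurableSet_Icc)
  refine (h1.union h2).mono_set ?_
  intro p hp
  by_cases h : p ∈ Icc (0 : ℝ) R ×ˢ Icc (-Real.pi) Real.pi
  · exact Or.inl h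
  · exact Or.inr ⟨hp, h⟩

lemma integral_Af {u : ℂ → ℂ} (hu : ContDiff ℝ 1 u) (hc : HasCompactSupport u) (z : ℂ) :
    ∫ p in Ioi (0 : ℝ) ×ˢ Ioo (-Real.pi) Real.pi, Af u z p = -(2 * Real.pi) * u z := by
  obtain ⟨R, hR, hR0⟩ := exists_bound hc z
  have hint := integrableOn_of (continuous_Af hu z) fun p hp => by rw [Af, hR0 p hp]; rfl
  have h1 : ∫ p in Ioi (0 : ℝ) ×ˢ Ioo (-Real.pi) Real.pi, Af u z p =
      ∫ θ in Ioo (-Real.pi) Real.pi, ∫ r in Ioi (0 : ℝ), Af u z (r, θ) := by
    rw [Measure.volume_eq_prod, setIntegral_prod _ hint]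
    refine integral_integral_swap ?_
    rw [Measure.prod_restrict]
    exact hint
  rw [h1]
  have h2 : ∀ θ : ℝ, ∫ r in Ioi (0 : ℝ), Af u z (r, θ) = - u z := by
    intro θ
    set f : ℝ → ℂ := fun r => u (z + r * ev θ) with hf
    have hfc : ContDiff ℝ 1 f := by
      refine hu.comp ?_
      exact contDiff_const.add (Complex.ofRealCLM.contDiff.mul contDiff_const)
    have hder : ∀ r, deriv f r = Af u z (r, θ) := by
      intro r
      have e1 : HasDerivAt (fun r : ℝ => z + r * ev θ) (ev θ) r := by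
        have := ((Complex.ofRealCLM.hasDerivAt (x := r)).mul_const (ev θ)).const_add z
        simpa using this
      have e2 : HasFDerivAt u (fderiv ℝ u (z + r * ev θ)) (z + r * ev θ) :=
        (hu.differentiable one_ne_zero _).hasFDerivAt
      exact (e2.comp_hasDerivAt r e1).deriv
    have hcs : HasCompactSupport f := by
      have hR1 : HasCompactSupport u := hc
      obtain ⟨R1, hR1'⟩ := hc.isCompact.isBounded.subset_ball 0
      refine HasCompactSupport.intro (isCompact_Icc (a := -(max R1 0 + ‖z‖)) (b := max R1 0 + ‖z‖))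
        fun r hr => ?_
      by_contra h
      have h2 := hR1' (subset_tsupport _ h)
      rw [mem_ball_zero_iff] at h2
      apply hr
      rw [mem_Icc, ← abs_le]
      have h3 : ‖(r : ℂ) * ev θ‖ = |r| := by
        rw [norm_mul, norm_ev, Complex.norm_real, mul_one, Real.norm_eq_abs]
      have h4 : ‖(r : ℂ) * ev θ‖ ≤ ‖z + r * ev θ‖ + ‖z‖ := by
        have := norm_sub_le (z + r * ev θ) z
        simpa using this
      have := le_max_left R1 0
      linarith
    have := hcs.integral_Ioi_deriv_eq hfc 0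
    simp only [hder] at this
    rw [this, hf]
    simp
  simp only [h2]
  rw [setIntegral_const]
  simp only [Measure.real, Real.volume_Ioo]
  rw [ENNReal.toReal_ofReal (by linarith [Real.pi_pos])]
  simp only [Complex.real_smul]
  push_cast
  ring

lemma integral_Bf {u : ℂ → ℂ} (hu : ContDiff ℝ 1 u) (hc : HasCompactSupport u) (z : ℂ) :
    ∫ p in Ioi (0 : ℝ) ×ˢ Ioo (-Real.pi) Real.pi, Bf u z p = 0 := by
  obtain ⟨R, hR, hR0⟩ := exists_bound hc z
  have hint := integrableOn_of (continuous_Bf hu z) fun p hp => by rw [Bf, hR0 p hp]; rfl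
  rw [Measure.volume_eq_prod, setIntegral_prod _ hint]
  refine setIntegral_eq_zero_of_forall_eq_zero fun r hr => ?_
  have hr0 : (0 : ℝ) < r := hr
  rw [← integral_Ioc_eq_integral_Ioo, ← intervalIntegral.integral_of_le (by linarith [Real.pi_pos])]
  have hder : ∀ θ : ℝ, HasDerivAt (fun θ : ℝ => u (z + r * ev θ)) (r * Bf u z (r, θ)) θ := by
    intro θ
    have e1 : HasDerivAt (fun θ : ℝ => z + r * ev θ) (r * (Complex.I * ev θ)) θ :=
      ((hasDerivAt_ev θ).const_mul (r : ℂ)).const_add z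
    have e2 : HasFDerivAt u (fderiv ℝ u (z + r * ev θ)) (z + r * ev θ) :=
      (hu.differentiable one_ne_zero _).hasFDerivAt
    have e3 := e2.comp_hasDerivAt θ e1
    refine e3.congr_deriv ?_
    have e4 : (r : ℂ) * (Complex.I * ev θ) = r • (Complex.I * ev θ) := Complex.real_smul.symm
    rw [Bf, e4, map_smul, Complex.real_smul]
  have hcont : Continuous fun θ : ℝ => (r : ℂ) * Bf u z (r, θ) := by
    have := continuous_Bf hu z
    fun_prop
  have h1 := intervalIntegral.integral_eq_sub_of_hasDerivAt (a := -Real.pi) (b := Real.pi)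
    (fun θ _ => hder θ) (hcont.intervalIntegrable _ _)
  have h2 : ev Real.pi = ev (-Real.pi) := by simp [ev]
  rw [h2, sub_self, intervalIntegral.integral_const_mul] at h1
  rcases mul_eq_zero.1 h1 with h3 | h3
  · exact absurd h3 (by exact_mod_cast hr0.ne')
  · exact h3

end S1

open S1 in
/-- Cauchy–Pompeiu -/
theorem cauchy_pompeiu {u : ℂ → ℂ} (hu : ContDiff ℝ 1 u) (hc : HasCompactSupport u) (z : ℂ) :
    ∫ ζ : ℂ, (fderiv ℝ u ζ 1 + Complex.I * fderiv ℝ u ζ Complex.I) / (ζ - z) =
      -(2 * Real.pi) * u z := by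
  have h1 : ∫ ζ : ℂ, (fderiv ℝ u ζ 1 + Complex.I * fderiv ℝ u ζ Complex.I) / (ζ - z) =
      ∫ w : ℂ, (fderiv ℝ u (z + w) 1 + Complex.I * fderiv ℝ u (z + w) Complex.I) / w := by
    rw [← integral_add_left_eq_self _ z]
    simp
  rw [h1, ← Complex.integral_comp_polarCoord_symm]
  have h2 : ∀ p ∈ polarCoord.target, p.1 •
      ((fderiv ℝ u (z + Complex.polarCoord.symm p) 1 +
        Complex.I * fderiv ℝ u (z + Complex.polarCoord.symm p) Complex.I) /
          Complex.polarCoord.symm p) = Af u z p + Complex.I * Bf u z p := by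
    intro p hp
    have hp0 : 0 < p.1 := hp.1
    have h3 : Complex.polarCoord.symm p = p.1 * ev p.2 := by
      rw [Complex.polarCoord_symm_apply, ev]
    rw [h3]
    exact identity _ hp0 p.2
  have hm : MeasurableSet polarCoord.target := polarCoord.open_target.measurableSet
  rw [setIntegral_congr_fun hm h2]
  obtain ⟨R, hR, hR0⟩ := exists_bound hc z
  have hA := integrableOn_of (continuous_Af hu z) fun p hp => by rw [Af, hR0 p hp]; rfl
  have hB := integrableOn_of (continuous_Bf hu z) fun p hp => by rw [Bf, hR0 p hp]; rfl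
  have ht : polarCoord.target = Ioi (0 : ℝ) ×ˢ Ioo (-Real.pi) Real.pi := rfl
  rw [ht, integral_add hA (hB.const_mul _), integral_const_mul, integral_Af hu hc,
    integral_Bf hu hc, mul_zero, add_zero]

end Pool.Agent.helper84.QD
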