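import Mathlib
import Pool.Agent.helper41.QD.S1

set_option autoImplicit false

/-!
# Module S2 : primitives from the Cauchy–Pompeiu formula
-/

open Metric Set Topology Filter MeasureTheory
open scoped Manifold ContDiff ENNReal ComplexConjugate

namespace Pool.Agent.helper84.QD

namespace S2

/-- `f` has a primitive on `V` -/
def Ex (V : Set ℂ) (f : ℂ → ℂ) : Prop := ∃ g : ℂ → ℂ, ∀ z ∈ V, HasDerivAt g (f z) z

lemma Ex.add {V : Set ℂ} {f₁ f₂ : ℂ → ℂ} (h₁ : Ex V f₁) (h₂ : Ex V f₂) :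
    Ex V fun z => f₁ z + f₂ z := by
  obtain ⟨g₁, h₁⟩ := h₁
  obtain ⟨g₂, h₂⟩ := h₂
  exact ⟨fun z => g₁ z + g₂ z, fun z hz => (h₁ z hz).add (h₂ z hz)⟩

lemma Ex.const_mul {V : Set ℂ} {f : ℂ → ℂ} (h : Ex V f) (c : ℂ) : Ex V fun z => c * f z := by
  obtain ⟨g, h⟩ := h
  exact ⟨fun z => c * g z, fun z hz => (h z hz).const_mul c⟩

lemma Ex.congr {V : Set ℂ} {f₁ f₂ : ℂ → ℂ} (h₁ : Ex V f₁) (h : ∀ z ∈ V, f₁ z = f₂ z) :
    Ex V f₂ := by
  obtain ⟨g, hg⟩ := h₁
  exact ⟨g, fun z hz => (hg z hz).congr_deriv (h z hz)⟩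

lemma local_step {V : Set ℂ} (hV : IsOpen V) {c : ℂ} {δ : ℝ} (hδ : 0 < δ)
    (hdist : ∀ z ∈ V, δ ≤ dist z c) (hker : ∃ g : ℂ → ℂ, ∀ z ∈ V, HasDerivAt g (1 / (z - c)) z)
    {w : ℂ → ℂ} (hw : Continuous w) {B : ℝ} (hwb : ∀ ζ, ‖w ζ‖ ≤ B) {P : Set ℂ}
    (hP : MeasurableSet P) (hPc : P ⊆ ball c (δ / 2)) :
    Ex V fun z => ∫ ζ in P, w ζ / (z - ζ) := by
  obtain ⟨g, hg⟩ := hker
  have hB : 0 ≤ B := (norm_nonneg _).trans (hwb 0)
  have hfin : volume P < ⊤ := (measure_mono hPc).trans_lt measure_ball_lt_top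
  have : IsFiniteMeasure (volume.restrict P) := ⟨by rwa [Measure.restrict_apply_univ]⟩
  have hwi : Integrable w (volume.restrict P) :=
    Integrable.of_bound hw.aestronglyMeasurable B (ae_of_all _ hwb)
  -- geometry
  have hne : ∀ z ∈ V, z - c ≠ 0 := by
    intro z hz h
    have := hdist z hz
    rw [dist_eq_norm, h, norm_zero] at this
    linarith
  have hcz : ∀ z ∈ V, δ ≤ ‖z - c‖ := fun z hz => by
    have := hdist z hz; rwa [dist_eq_norm] at this
  have hζ : ∀ ζ ∈ P, ‖ζ - c‖ < δ / 2 := fun ζ h => by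
    have := hPc h; rwa [mem_ball, dist_eq_norm] at this
  have hzζ : ∀ z ∈ V, ∀ ζ ∈ P, δ / 2 ≤ ‖z - ζ‖ := by
    intro z hz ζ h
    have h1 := hcz z hz
    have h2 := hζ ζ h
    have h3 : ‖z - c‖ ≤ ‖z - ζ‖ + ‖ζ - c‖ := by
      have := norm_add_le (z - ζ) (ζ - c)
      simpa using this
    linarith
  have hq : ∀ z ∈ V, ∀ ζ ∈ P, ‖-((ζ - c) / (z - c))‖ ≤ 1 / 2 := by
    intro z hz ζ h
    rw [norm_neg, norm_div, div_le_iff₀ (norm_pos_iff.2 (hne z hz))]
    have h1 := hcz z hz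
    have h2 := hζ ζ h
    linarith
  set F : ℂ → ℂ → ℂ := fun z ζ => w ζ * Complex.log (1 + -((ζ - c) / (z - c))) with hF
  set F' : ℂ → ℂ → ℂ := fun z ζ => w ζ * (1 / (z - ζ) - 1 / (z - c)) with hF'
  have hder : ∀ z ∈ V, ∀ ζ ∈ P, HasDerivAt (fun z => F z ζ) (F' z ζ) z := by
    intro z hz ζ h
    have hzc := hne z hz
    have hzz : z - ζ ≠ 0 := by
      rw [← norm_pos_iff]; linarith [hzζ z hz ζ h]
    have e1 : HasDerivAt (fun z => z - c) 1 z := (hasDerivAt_id z).sub_const c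
    have e2 : HasDerivAt (fun z => 1 + -((ζ - c) / (z - c))) ((ζ - c) / (z - c) ^ 2) z := by
      have := (((hasDerivAt_const z (ζ - c)).fun_div e1 hzc).neg).const_add 1
      refine this.congr_deriv ?_
      ring
    have e3 : (1 + -((ζ - c) / (z - c))) ∈ Complex.slitPlane :=
      Complex.mem_slitPlane_of_norm_lt_one (by linarith [hq z hz ζ h])
    have e4 := (e2.clog e3).const_mul (w ζ)
    refine e4.congr_deriv ?_
    simp only [hF']
    congr 1
    have e5 : 1 + -((ζ - c) / (z - c)) = (z - ζ) / (z - c) := by field_simp; ring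
    rw [e5]
    field_simp
    ring
  have hmeasF : ∀ z, AEStronglyMeasurable (F z) (volume.restrict P) := by
    intro z
    have h1 : Measurable (F z) := by
      have := hw.measurable
      simp only [hF]
      fun_prop
    exact h1.aestronglyMeasurable
  have hmeasF' : ∀ z, AEStronglyMeasurable (F' z) (volume.restrict P) := by
    intro z
    have h1 : Measurable (F' z) := by
      have := hw.measurable
      simp only [hF']
      fun_prop
    exact h1.aestronglyMeasurable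
  have hae : ∀ {p : ℂ → Prop}, (∀ ζ ∈ P, p ζ) → ∀ᵐ ζ ∂(volume.restrict P), p ζ := by
    intro p hp
    rw [ae_restrict_iff' hP]
    exact ae_of_all _ hp
  have hintF : ∀ z ∈ V, Integrable (F z) (volume.restrict P) := by
    intro z hz
    refine Integrable.of_bound (hmeasF z) (B * (3 / 2 * (1 / 2))) (hae fun ζ h => ?_)
    simp only [hF]
    rw [norm_mul]
    refine mul_le_mul (hwb ζ) ?_ (norm_nonneg _) hB
    refine (Complex.norm_log_one_add_half_le_self (hq z hz ζ h)).trans ?_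
    gcongr
    exact hq z hz ζ h
  have key : ∀ z₀ ∈ V, Integrable (F' z₀) (volume.restrict P) ∧
      HasDerivAt (fun z => ∫ ζ in P, F z ζ) (∫ ζ in P, F' z₀ ζ) z₀ := by
    intro z₀ hz₀
    refine hasDerivAt_integral_of_dominated_loc_of_deriv_le
      (bound := fun _ => B * (1 / (δ / 2) + 1 / δ)) (hV.mem_nhds hz₀)
      (Eventually.of_forall hmeasF) (hintF z₀ hz₀) (hmeasF' z₀)
      (hae fun ζ h z hz => ?_) (integrable_const _) (hae fun ζ h z hz => hder z hz ζ h)
    simp only [hF']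
    rw [norm_mul]
    refine mul_le_mul (hwb ζ) ?_ (norm_nonneg _) hB
    refine (norm_sub_le _ _).trans ?_
    rw [norm_div, norm_div, norm_one]
    have h1 := hzζ z hz ζ h
    have h2 := hcz z hz
    gcongr
  refine ⟨fun z => g z * (∫ ζ in P, w ζ) + ∫ ζ in P, F z ζ, fun z hz => ?_⟩
  have h1 := ((hg z hz).mul_const (∫ ζ in P, w ζ)).add (key z hz).2
  refine h1.congr_deriv ?_
  rw [← integral_const_mul, ← integral_add (hwi.const_mul _) (key z hz).1]
  refine setIntegral_congr_fun hP fun ζ _ => ?_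
  simp only [hF']
  ring

lemma exact_integral {V S : Set ℂ} (hV : IsOpen V) (hS : IsCompact S) {δ : ℝ} (hδ : 0 < δ)
    (hdist : ∀ c ∈ S, ∀ z ∈ V, δ ≤ dist z c)
    (hker : ∀ c ∈ S, ∃ g : ℂ → ℂ, ∀ z ∈ V, HasDerivAt g (1 / (z - c)) z)
    {w : ℂ → ℂ} (hw : Continuous w) {B : ℝ} (hwb : ∀ ζ, ‖w ζ‖ ≤ B)
    (hint : ∀ z ∈ V, Integrable fun ζ => w ζ / (z - ζ)) :
    Ex V fun z => ∫ ζ in S, w ζ / (z - ζ) := by
  have key : ∃ O : Set ℂ, MeasurableSet O ∧ S ⊆ O ∧ ∀ P ⊆ O, MeasurableSet P →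
      Ex V fun z => ∫ ζ in P, w ζ / (z - ζ) := by
    refine hS.induction_on (p := fun s => ∃ O : Set ℂ, MeasurableSet O ∧ s ⊆ O ∧ ∀ P ⊆ O,
      MeasurableSet P → Ex V fun z => ∫ ζ in P, w ζ / (z - ζ)) ?_ ?_ ?_ ?_
    · refine ⟨∅, MeasurableSet.empty, le_rfl, fun P hP _ => ⟨fun _ => 0, fun z _ => ?_⟩⟩
      rw [subset_empty_iff.1 hP]
      simpa using hasDerivAt_const z (0 : ℂ)
    · rintro s t hst ⟨O, hO, hsO, h⟩
      exact ⟨O, hO, hst.trans hsO, h⟩
    · rintro s t ⟨O₁, hO₁, hs₁, h₁⟩ ⟨O₂, hO₂, hs₂, h₂⟩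
      refine ⟨O₁ ∪ O₂, hO₁.union hO₂, union_subset_union hs₁ hs₂, fun P hP hPm => ?_⟩
      have e1 := h₁ (P ∩ O₁) inter_subset_right (hPm.inter hO₁)
      have e2 := h₂ (P \ O₁) (fun x hx => (hP hx.1).resolve_left hx.2) (hPm.diff hO₁)
      refine (e1.add e2).congr fun z hz => ?_
      exact integral_inter_add_sdiff hO₁ (hint z hz).integrableOn
    · intro c hc
      refine ⟨ball c (δ / 2), mem_nhdsWithin_of_mem_nhds (ball_mem_nhds c (by positivity)),
        ball c (δ / 2), measurableSet_ball, le_rfl, fun P hP hPm => ?_⟩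
      exact local_step hV hδ (hdist c hc) (hker c hc) hw hwb hPm hP
  obtain ⟨O, _, hSO, h⟩ := key
  exact h S hSO hS.measurableSet

end S2

open S2 in
/-- a holomorphic function on `D` is exact on `V` if all `1/(z-ζ)`, `ζ ∈ D \ Kh`, are. -/
theorem exact_of_kernels {D V Kh : Set ℂ} (hD : IsOpen D) (hV : IsOpen V) (hVc : IsConnected V)
    (hKh : IsCompact Kh) (hVK : closure V ⊆ Kh) (hKD : Kh ⊆ D)
    (hker : ∀ ζ ∈ D \ Kh, ∃ g : ℂ → ℂ, ∀ z ∈ V, HasDerivAt g (1 / (z - ζ)) z)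
    {f : ℂ → ℂ} (hf : DifferentiableOn ℂ f D) :
    ∃ g : ℂ → ℂ, ∀ z ∈ V, HasDerivAt g (f z) z := by
  obtain ⟨δ, hδ, hδD⟩ := hKh.exists_cthickening_subset_open hD hKD
  -- the cutoff
  have hdisj : Disjoint (thickening δ Kh)ᶜ (cthickening (δ / 2) Kh) := by
    rw [disjoint_compl_left_iff_subset]
    exact cthickening_subset_thickening' hδ (by linarith) Kh
  obtain ⟨χ, hχ0, hχ1, -⟩ := exists_contMDiffMap_zero_one_of_isClosed (n := (⊤ : ℕ∞)) 𝓘(ℝ, ℂ)
    (isOpen_thickening.isClosed_compl) (isClosed_cthickening) hdisj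
  have hχs : ContDiff ℝ 1 (fun z : ℂ => (χ z : ℂ)) := by
    have h1 : ContDiff ℝ ∞ (χ : ℂ → ℝ) := χ.contMDiff.contDiff
    exact Complex.ofRealCLM.contDiff.comp (h1.of_le (by norm_cast))
  set u : ℂ → ℂ := fun ζ => (χ ζ : ℂ) * f ζ with hu
  have hu0 : ∀ ζ ∉ cthickening δ Kh, u =ᶠ[𝓝 ζ] fun _ => 0 := by
    intro ζ hζ
    filter_upwards [isClosed_cthickening.isOpen_compl.mem_nhds hζ] with y hy
    have : χ y = 0 := hχ0 (fun h => hy (thickening_subset_cthickening _ _ h))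
    simp [hu, this]
  have huc : ContDiff ℝ 1 u := by
    rw [contDiff_iff_contDiffAt]
    intro x
    by_cases hx : x ∈ D
    · have h1 : AnalyticAt ℂ f x := hf.analyticAt (hD.mem_nhds hx)
      exact hχs.contDiffAt.mul (h1.contDiffAt.restrict_scalars ℝ)
    · exact (contDiffAt_const (c := (0 : ℂ))).congr_of_eventuallyEq (hu0 x fun h => hx (hδD h))
  have hucs : HasCompactSupport u := by
    refine HasCompactSupport.intro hKh.cthickening fun ζ hζ => (hu0 ζ hζ).self_of_nhds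
  set w : ℂ → ℂ := fun ζ => fderiv ℝ u ζ 1 + Complex.I * fderiv ℝ u ζ Complex.I with hw
  have hwc : Continuous w := by
    have h := huc.continuous_fderiv one_ne_zero
    exact (h.clm_apply continuous_const).add
      (continuous_const.mul (h.clm_apply continuous_const))
  have hw0 : ∀ ζ ∉ cthickening δ Kh, w ζ = 0 := by
    intro ζ hζ
    have h1 : fderiv ℝ u ζ = 0 := by
      rw [(hu0 ζ hζ).fderiv_eq]; simp
    simp [hw, h1]
  have hw1 : ∀ ζ ∈ thickening (δ / 2) Kh, w ζ = 0 := by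
    intro ζ hζ
    have hζD : ζ ∈ D := hδD (thickening_subset_cthickening _ _
      (thickening_mono (by linarith) _ hζ))
    have h1 : u =ᶠ[𝓝 ζ] f := by
      filter_upwards [isOpen_thickening.mem_nhds hζ] with y hy
      have : χ y = 1 := hχ1 (thickening_subset_cthickening _ _ hy)
      simp [hu, this]
    have h2 : HasFDerivAt f ((fderiv ℂ f ζ).restrictScalars ℝ) ζ :=
      (hf.differentiableAt (hD.mem_nhds hζD)).hasFDerivAt.restrictScalars ℝ
    have h3 : fderiv ℝ u ζ = (fderiv ℂ f ζ).restrictScalars ℝ := by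
      rw [h1.fderiv_eq, h2.fderiv]
    simp only [hw, h3, ContinuousLinearMap.coe_restrictScalars']
    have h4 : fderiv ℂ f ζ Complex.I = Complex.I * fderiv ℂ f ζ 1 := by
      rw [← smul_eq_mul, ← map_smul, smul_eq_mul, mul_one]
    rw [h4, ← mul_assoc, Complex.I_mul_I]
    ring
  have hwcs : HasCompactSupport w := HasCompactSupport.intro hKh.cthickening hw0
  obtain ⟨B, hB⟩ := hwc.bounded_above_of_compact_support hwcs
  have hVKh : ∀ z ∈ V, z ∈ Kh := fun z hz => hVK (subset_closure hz)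
  have hsep : ∀ c ∉ thickening (δ / 2) Kh, ∀ z ∈ V, δ / 2 ≤ dist z c := by
    intro c hc z hz
    by_contra h
    push Not at h
    exact hc (mem_thickening_iff.2 ⟨z, hVKh z hz, by rwa [dist_comm]⟩)
  have hint : ∀ z ∈ V, Integrable fun ζ => w ζ / (z - ζ) := by
    intro z hz
    have h1 : Integrable fun ζ => ‖w ζ‖ / (δ / 2) :=
      (hwc.integrable_of_hasCompactSupport hwcs).norm.div_const _
    refine h1.mono' ?_ (ae_of_all _ fun ζ => ?_)
    · have : Measurable w := hwc.measurable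
      have h2 : Measurable fun ζ => w ζ / (z - ζ) := by fun_prop
      exact h2.aestronglyMeasurable
    · by_cases hζ : ζ ∈ thickening (δ / 2) Kh
      · rw [hw1 ζ hζ]; simp
      · rw [norm_div]
        have := hsep ζ hζ z hz
        rw [dist_eq_norm] at this
        gcongr
  set S : Set ℂ := cthickening δ Kh \ thickening (δ / 2) Kh with hS
  have hSc : IsCompact S := hKh.cthickening.diff isOpen_thickening
  have hex := exact_integral (S := S) hV hSc (δ := δ / 2) (by positivity)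
    (fun c hc => hsep c hc.2) (fun c hc => hker c ⟨hδD hc.1, fun h => hc.2
      (self_subset_thickening (by positivity) _ h)⟩) hwc hB hint
  have h2 := (hex.const_mul (1 / (2 * Real.pi : ℂ))).congr (f₂ := f) fun z hz => ?_
  · exact h2
  · have h3 : ∫ ζ in S, w ζ / (z - ζ) = ∫ ζ, w ζ / (z - ζ) := by
      refine setIntegral_eq_integral_of_forall_compl_eq_zero fun ζ hζ => ?_
      have : w ζ = 0 := by
        by_cases h4 : ζ ∈ thickening (δ / 2) Kh
        · exact hw1 ζ h4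
        · exact hw0 ζ fun h5 => hζ ⟨h5, h4⟩
      rw [this, zero_div]
    have h4 := cauchy_pompeiu huc hucs z
    have h5 : u z = f z := by
      have : χ z = 1 := hχ1 (self_subset_cthickening _ (hVKh z hz))
      simp [hu, this]
    have h6 : ∫ ζ, w ζ / (z - ζ) = 2 * Real.pi * f z := by
      have h7 : ∀ ζ, w ζ / (z - ζ) = -(w ζ / (ζ - z)) := by
        intro ζ
        rw [← div_neg, neg_sub]
      simp only [h7]
      rw [integral_neg, h4, h5]
      ring
    rw [h3, h6]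
    have hpi : (Real.pi : ℂ) ≠ 0 := by exact_mod_cast Real.pi_ne_zero
    field_simp

end Pool.Agent.helper84.QD
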